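import Pool.Agent.Helper14.CV.StD

/-!
# Project CV, module Itr: iteration of the leading forms
-/

set_option autoImplicit false

namespace Pool.Agent.Helper92.CV

open Pool.Agent.Helper14.CV

/-- The plane function of a potential. -/
noncomputable def Ph (r s : ℕ) (G : ℤ → ℤ → ZMod 2) : Fn (2 ^ r) (2 ^ s) :=
  fun x y => edgeF 1 1 0 0 1 G x y

/-- The second plane function. -/
noncomputable def Ph3 (r s : ℕ) (G : ℤ → ℤ → ZMod 2) : Fn (2 ^ r) (2 ^ s) :=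
  fun x y => edgeF 1 1 1 0 1 G x y

theorem add_self_fn {q q' : ℕ} (F : Fn q q') : F + F = 0 := by
  funext x y
  simp only [Pi.add_apply, Pi.zero_apply]
  exact CharTwo.add_self_eq_zero _

theorem eq_of_add_zero {q q' : ℕ} {F H : Fn q q'} (h : F + H = 0) : F = H := by
  have h1 : F + H + H = 0 + H := by rw [h]
  rwa [add_assoc, add_self_fn, add_zero, zero_add] at h1

theorem mem_shift {q q' : ℕ} {d e : ℤ} (hde : d = e) {F : Fn q q'} (h : F ∈ Wd d) : F ∈ Wd e := hde ▸ h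

/-- Solving `a n + c ≡ 0` modulo `2^k`, `a` odd. -/
theorem solve (k : ℕ) (a c : ℤ) (ha : ¬ (2 : ℤ) ∣ a) : ∃ n : ℤ, (2 : ℤ) ^ k ∣ a * n + c := by
  have hco : IsCoprime a ((2 : ℤ) ^ k) := by
    apply IsCoprime.pow_right
    exact (((Int.prime_two).coprime_iff_not_dvd).2 ha).symm
  obtain ⟨u, v, huv⟩ := hco
  refine ⟨-(u * c), ⟨v * c, ?_⟩⟩
  have : a * -(u * c) + c = c - (u * a) * c := by ring
  rw [this]
  have h2 : u * a = 1 - v * 2 ^ k := by linarith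
  rw [h2]
  ring

section

variable {r s : ℕ}

theorem low_L3 (hLow0 : StLow0) : Low (L3 : Module.End (ZMod 2) (Fn (2 ^ r) (2 ^ s))) 3 := by
  obtain ⟨hm, ha, -, -, -, hx, hy, -⟩ := hLow0 r s
  have h1 := hm _ _ _ _ hx hy
  have h2 := ha _ _ _ hx hy
  have h3 := hm _ _ _ _ h1 h2
  unfold L3
  norm_num at h3
  exact h3

theorem low_L5 (hLow0 : StLow0) : Low (L5 : Module.End (ZMod 2) (Fn (2 ^ r) (2 ^ s))) 4 := by
  obtain ⟨hm, ha, -, -, -, hx, hy, -⟩ := hLow0 r s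
  have h1 := hm _ _ _ _ hx hx
  have h2 := hm _ _ _ _ hy hy
  have h3 := hm _ _ _ _ h1 h2
  unfold L5
  rw [pow_two, pow_two]
  norm_num at h3
  exact h3

/-- The common argument of both steps. -/
theorem step_gen {L : Module.End (ZMod 2) (Fn (2 ^ r) (2 ^ s))} {k e : ℤ}
    (hmono : ∀ d d' : ℤ, d ≤ d' → (Wd d : Submodule (ZMod 2) (Fn (2 ^ r) (2 ^ s))) ≤ Wd d')
    (hL : Low L k) {F H F' : Fn (2 ^ r) (2 ^ s)} (hF : F ∈ Wd e) (hH : F + H ∈ Wd (e - 1))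
    (hF' : F' + L F ∈ Wd (e - (k + 1))) : F' ∈ Wd (e - k) ∧ F' + L H ∈ Wd (e - k - 1) := by
  have h1 : L F ∈ Wd (e - k) := hL e F hF
  have h2 : L (F + H) ∈ Wd (e - 1 - k) := hL (e - 1) _ hH
  have h3 : F' + L F ∈ Wd (e - k) := hmono _ _ (by linarith) hF'
  constructor
  · have h4 := Submodule.add_mem _ h3 h1
    rwa [add_assoc, add_self_fn, add_zero] at h4
  · have h5 := Submodule.add_mem _ (mem_shift (by ring) hF' : F' + L F ∈ Wd (e - k - 1))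
      (mem_shift (by ring) h2 : L (F + H) ∈ Wd (e - k - 1))
    have h6 : F' + L F + L (F + H) = F' + L H := by
      rw [map_add, add_assoc, ← add_assoc (L F), add_self_fn, zero_add]
    rwa [h6] at h5

theorem step3 (hRel : StRel) (hHkB : StHkB) (hHk3 : StHk3) (hLow0 : StLow0) (hLd3 : StLd3)
    (hrs : 3 ≤ r + s) {G : ℤ → ℤ → ZMod 2} {H : Fn (2 ^ r) (2 ^ s)} {e : ℤ} (hG : Sym (r + 1) (s + 1) G)
    (hF : Ph r s G ∈ Wd e) (hH : Ph r s G + H ∈ Wd (e - 1)) :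
    Sym (r + 1) (s + 1) (Tl 3 (2 ^ (r + 1)) G) ∧ Ph r s (Tl 3 (2 ^ (r + 1)) G) ∈ Wd (e - 3) ∧
      Ph r s (Tl 3 (2 ^ (r + 1)) G) + L3 H ∈ Wd (e - 3 - 1) := by
  refine ⟨(hHkB (ZMod 2) _ (r + 1) (s + 1) 3 G (by norm_num) (by norm_num) hG).1, ?_⟩
  obtain ⟨n1, hn1⟩ := solve (r + s) 3 1 (by norm_num)
  obtain ⟨n2, hn2⟩ := solve (r + s) 3 2 (by norm_num)
  have h8 : (8 : ℤ) ∣ 2 ^ (r + s) := by
    have : (8 : ℤ) = 2 ^ 3 := by norm_num
    rw [this]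
    exact pow_dvd_pow 2 hrs
  have h1 : (4 : ℤ) ∣ n1 - 1 := by
    have := h8.trans hn1
    omega
  have h2 : (4 : ℤ) ∣ n2 - 2 := by
    have := h8.trans hn2
    omega
  have hR : Rel (Ph r s G) (Ph3 r s G) := hRel (ZMod 2) _ r s G hG
  have h3 := hHk3 r s G n1 n2 (Ph r s G) (Ph3 r s G) (Ph r s (Tl 3 (2 ^ (r + 1)) G)) hG hn1 hn2
    (fun _ _ => rfl) (fun _ _ => rfl) (fun _ _ => rfl)
  have h4 := hLd3 r s n1 n2 e (Ph r s G) (Ph3 r s G) hR h1 h2 hF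
  rw [← h3] at h4
  exact step_gen (k := 3) (hLow0 r s).2.2.2.1 (low_L3 hLow0) hF hH (mem_shift (by ring) h4)

theorem step5 (hRel : StRel) (hHkB : StHkB) (hHk5 : StHk5) (hLow0 : StLow0) (hLd5 : StLd5)
    (hrs : 3 ≤ r + s) {G : ℤ → ℤ → ZMod 2} {H : Fn (2 ^ r) (2 ^ s)} {e : ℤ} (hG : Sym (r + 1) (s + 1) G)
    (hF : Ph r s G ∈ Wd e) (hH : Ph r s G + H ∈ Wd (e - 1)) :
    Sym (r + 1) (s + 1) (Tl 5 (2 ^ (r + 1)) G) ∧ Ph r s (Tl 5 (2 ^ (r + 1)) G) ∈ Wd (e - 4) ∧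
      Ph r s (Tl 5 (2 ^ (r + 1)) G) + L5 H ∈ Wd (e - 4 - 1) := by
  refine ⟨(hHkB (ZMod 2) _ (r + 1) (s + 1) 5 G (by norm_num) (by norm_num) hG).1, ?_⟩
  obtain ⟨m1, hm1⟩ := solve (r + s) 5 1 (by norm_num)
  obtain ⟨m2, hm2⟩ := solve (r + s) 5 (-1) (by norm_num)
  obtain ⟨m3, hm3⟩ := solve (r + s) 5 2 (by norm_num)
  obtain ⟨m4, hm4⟩ := solve (r + s) 5 3 (by norm_num)
  have h8 : (8 : ℤ) ∣ 2 ^ (r + s) := by
    have : (8 : ℤ) = 2 ^ 3 := by norm_num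
    rw [this]
    exact pow_dvd_pow 2 hrs
  have h1 : (8 : ℤ) ∣ m1 - 3 := by
    have := h8.trans hm1
    omega
  have h2 : (8 : ℤ) ∣ m2 - 5 := by
    have := h8.trans hm2
    omega
  have h3 : (8 : ℤ) ∣ m3 - 6 := by
    have := h8.trans hm3
    omega
  have h4 : (8 : ℤ) ∣ m4 - 1 := by
    have := h8.trans hm4
    omega
  have hR : Rel (Ph r s G) (Ph3 r s G) := hRel (ZMod 2) _ r s G hG
  have h5 := hHk5 r s G m1 m2 m3 m4 (Ph r s G) (Ph3 r s G) (Ph r s (Tl 5 (2 ^ (r + 1)) G)) hG hm1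
    (by rwa [← sub_eq_add_neg] at hm2) hm3 hm4 (fun _ _ => rfl) (fun _ _ => rfl) (fun _ _ => rfl)
  have h6 := hLd5 r s m1 m2 m3 m4 e (Ph r s G) (Ph3 r s G) hR h1 h2 h3 h4 hF
  rw [← h5] at h6
  exact step_gen (k := 4) (hLow0 r s).2.2.2.1 (low_L5 hLow0) hF hH (mem_shift (by ring) h6)

theorem iter5 (hRel : StRel) (hHkB : StHkB) (hHk5 : StHk5) (hLow0 : StLow0) (hLd5 : StLd5)
    (hrs : 3 ≤ r + s) {G : ℤ → ℤ → ZMod 2} {d : ℤ} (hG : Sym (r + 1) (s + 1) G)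
    (hF : Ph r s G ∈ Wd d) (j : ℕ) :
    Sym (r + 1) (s + 1) ((Tl 5 (2 ^ (r + 1)))^[j] G) ∧
      Ph r s ((Tl 5 (2 ^ (r + 1)))^[j] G) ∈ Wd (d - 4 * j) ∧
      Ph r s ((Tl 5 (2 ^ (r + 1)))^[j] G) +
        (L5 ^ j : Module.End (ZMod 2) (Fn (2 ^ r) (2 ^ s))) (Ph r s G) ∈ Wd (d - 4 * j - 1) := by
  induction j with
  | zero =>
    refine ⟨hG, mem_shift (by simp) hF, ?_⟩
    simp only [Function.iterate_zero, id_eq, pow_zero, Module.End.one_apply]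
    rw [add_self_fn]
    exact Submodule.zero_mem _
  | succ j ih =>
    obtain ⟨i1, i2, i3⟩ := ih
    have h := step5 hRel hHkB hHk5 hLow0 hLd5 hrs i1 i2 i3
    have hp : (L5 ^ (j + 1) : Module.End (ZMod 2) (Fn (2 ^ r) (2 ^ s))) = L5 * L5 ^ j := pow_succ' _ _
    rw [Function.iterate_succ_apply', hp, Module.End.mul_apply]
    refine ⟨h.1, mem_shift (by push_cast; ring) h.2.1, mem_shift (by push_cast; ring) h.2.2⟩

theorem iter3 (hRel : StRel) (hHkB : StHkB) (hHk3 : StHk3) (hLow0 : StLow0) (hLd3 : StLd3)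
    (hrs : 3 ≤ r + s) {G : ℤ → ℤ → ZMod 2} {H : Fn (2 ^ r) (2 ^ s)} {d : ℤ} (hG : Sym (r + 1) (s + 1) G)
    (hF : Ph r s G ∈ Wd d) (hH : Ph r s G + H ∈ Wd (d - 1)) (i : ℕ) :
    Sym (r + 1) (s + 1) ((Tl 3 (2 ^ (r + 1)))^[i] G) ∧
      Ph r s ((Tl 3 (2 ^ (r + 1)))^[i] G) ∈ Wd (d - 3 * i) ∧
      Ph r s ((Tl 3 (2 ^ (r + 1)))^[i] G) +
        (L3 ^ i : Module.End (ZMod 2) (Fn (2 ^ r) (2 ^ s))) H ∈ Wd (d - 3 * i - 1) := by
  induction i with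
  | zero =>
    refine ⟨hG, mem_shift (by simp) hF, ?_⟩
    simp only [Function.iterate_zero, id_eq, pow_zero, Module.End.one_apply]
    exact mem_shift (by simp) hH
  | succ i ih =>
    obtain ⟨i1, i2, i3⟩ := ih
    have h := step3 hRel hHkB hHk3 hLow0 hLd3 hrs i1 i2 i3
    have hp : (L3 ^ (i + 1) : Module.End (ZMod 2) (Fn (2 ^ r) (2 ^ s))) = L3 * L3 ^ i := pow_succ' _ _
    rw [Function.iterate_succ_apply', hp, Module.End.mul_apply]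
    refine ⟨h.1, mem_shift (by push_cast; ring) h.2.1, mem_shift (by push_cast; ring) h.2.2⟩

theorem Ph_zero (G : ℤ → ℤ → ZMod 2) : Ph r s G 0 0 = G 1 0 - G 0 1 := by
  unfold Ph edgeF
  have hY : rY 1 (0 : ZMod (2 ^ r)) (0 : ZMod (2 ^ s)) = 0 := by
    unfold rY
    simp
  rw [hY]
  simp

end

theorem hItr (hRel : StRel) (hHkB : StHkB) (hHk3 : StHk3) (hHk5 : StHk5) (hLow0 : StLow0)
    (hLd3 : StLd3) (hLd5 : StLd5) : StItr := by
  intro r s G F1 d hrs hG hF1 hd i j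
  have hF : F1 = Ph r s G := by
    funext x y
    exact hF1 x y
  rw [hF] at hd ⊢
  obtain ⟨a1, a2, a3⟩ := iter5 hRel hHkB hHk5 hLow0 hLd5 hrs hG hd j
  obtain ⟨b1, b2, b3⟩ := iter3 hRel hHkB hHk3 hLow0 hLd3 hrs a1 a2 a3 i
  obtain ⟨-, -, -, hmono, -, -, -, -, -, -, -, -, hz⟩ := hLow0 r s
  have hev : ev (2 ^ (r + 1)) G i j =
      Ph r s ((Tl 3 (2 ^ (r + 1)))^[i] ((Tl 5 (2 ^ (r + 1)))^[j] G)) 0 0 := by
    rw [Ph_zero]
    rfl
  constructor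
  · intro hlt
    have h1 := hz _ (hmono _ (-1) (by have : (d : ℤ) < 3 * i + 4 * j := by exact_mod_cast hlt
                                      linarith) b2)
    rw [hev, h1]
    rfl
  · intro heq
    have h1 := hz _ (hmono _ (-1) (by have : (3 * i + 4 * j : ℤ) = d := by exact_mod_cast heq
                                      linarith) b3)
    rw [hev, eq_of_add_zero h1, Module.End.mul_apply]

end Pool.Agent.Helper92.CV
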